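import Mathlib

set_option autoImplicit false

namespace Pool.Agent.W579.BM

open Polynomial

noncomputable def pd {n : ℕ} (g : (Fin n → ℕ) → ℕ) (l : List (Fin n → ℕ)) :
    Polynomial (Polynomial ℤ) :=
  (l.map fun a => 1 - C (X ^ (∑ i, a i)) * X ^ g a).prod

theorem coe_pd {n : ℕ} (g : (Fin n → ℕ) → ℕ) (l : List (Fin n → ℕ)) :
    ((pd g l : Polynomial (Polynomial ℤ)) : PowerSeries (Polynomial ℤ)) =
      (l.map fun a => 1 - PowerSeries.C (Polynomial.X ^ (∑ i, a i)) *
        PowerSeries.X ^ g a).prod := by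
  induction l with
  | nil => simp [pd]
  | cons a l ih =>
    have h : pd g (a :: l) = (1 - C (X ^ (∑ i, a i)) * X ^ g a) * pd g l := by simp [pd]
    rw [h, Polynomial.coe_mul, ih]
    simp

theorem eval_pd {n : ℕ} (g : (Fin n → ℕ) → ℕ) (l : List (Fin n → ℕ)) (x t : ℂ) :
    ((pd g l).map (eval₂RingHom (Int.castRingHom ℂ) x)).eval t =
      (l.map fun a => 1 - x ^ (∑ i, a i) * t ^ g a).prod := by
  induction l with
  | nil => simp [pd]
  | cons a l ih =>
    have h : pd g (a :: l) = (1 - C (X ^ (∑ i, a i)) * X ^ g a) * pd g l := by simp [pd]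
    rw [h, Polynomial.map_mul, eval_mul, ih]
    simp

theorem poly_eq {F G : Polynomial ℂ} (h : ∀ t : ℂ, ‖t‖ < 1 → F.eval t = G.eval t) : F = G := by
  refine Polynomial.eq_of_infinite_eval_eq F G ?_
  have h1 : (Set.range fun k : ℕ => ((k : ℂ) + 2)⁻¹) ⊆ {x | F.eval x = G.eval x} := by
    rintro _ ⟨k, rfl⟩
    refine h _ ?_
    rw [norm_inv]
    have h2 : ‖(k : ℂ) + 2‖ = (k : ℝ) + 2 := by
      have : (k : ℂ) + 2 = (((k : ℝ) + 2 : ℝ) : ℂ) := by push_cast; ring
      rw [this, Complex.norm_real, Real.norm_of_nonneg (by positivity)]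
    rw [h2]
    apply inv_lt_one_of_one_lt₀
    have : (0 : ℝ) ≤ k := Nat.cast_nonneg k
    linarith
  refine Set.Infinite.mono h1 (Set.infinite_range_of_injective ?_)
  intro a b hab
  have := inv_injective hab
  simpa using this

theorem int_zero (c : Polynomial ℤ)
    (h : ∀ p : ℕ, 2 ≤ p → c.eval₂ (Int.castRingHom ℂ) ((p : ℂ)⁻¹) = 0) : c = 0 := by
  have h1 : c.map (Int.castRingHom ℂ) = 0 := by
    refine Polynomial.eq_zero_of_infinite_isRoot _ ?_
    have h2 : (Set.range fun k : ℕ => (((k + 2 : ℕ)) : ℂ)⁻¹) ⊆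
        {x | (c.map (Int.castRingHom ℂ)).IsRoot x} := by
      rintro _ ⟨k, rfl⟩
      show (c.map (Int.castRingHom ℂ)).eval _ = 0
      rw [eval_map]
      exact h (k + 2) (by omega)
    refine Set.Infinite.mono h2 (Set.infinite_range_of_injective ?_)
    intro a b hab
    have h3 := inv_injective hab
    have h4 : a + 2 = b + 2 := by exact_mod_cast h3
    omega
  exact (Polynomial.map_eq_zero_iff (RingHom.injective_int (Int.castRingHom ℂ))).mp h1

theorem core {n : ℕ} (g : (Fin n → ℕ) → ℕ) (S : PowerSeries (Polynomial ℤ))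
    (l l' : List (Fin n → ℕ)) (P : Polynomial (Polynomial ℤ)) (hg : ∀ a ∈ l, 0 < g a)
    (hS : S * (l.map fun a => 1 - PowerSeries.C (Polynomial.X ^ (∑ i, a i)) *
        PowerSeries.X ^ g a).prod = ((P : Polynomial (Polynomial ℤ)) : PowerSeries (Polynomial ℤ)))
    (hB : ∀ p : ℕ, 2 ≤ p → ∃ B : Polynomial ℂ, ∀ t : ℂ, ‖t‖ < 1 →
      Polynomial.eval₂ (Polynomial.eval₂RingHom (Int.castRingHom ℂ) (p : ℂ)⁻¹) t P *
        (l'.map fun a => 1 - ((p : ℂ)⁻¹) ^ (∑ i, a i) * t ^ g a).prod =
      B.eval t * (l.map fun a => 1 - ((p : ℂ)⁻¹) ^ (∑ i, a i) * t ^ g a).prod) :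
    ∃ Q : Polynomial (Polynomial ℤ),
      S * (l'.map fun a => 1 - PowerSeries.C (Polynomial.X ^ (∑ i, a i)) *
        PowerSeries.X ^ g a).prod =
      ((Q : Polynomial (Polynomial ℤ)) : PowerSeries (Polynomial ℤ)) := by
  rw [← coe_pd] at hS
  rw [← coe_pd]
  set D := pd g l with hD
  set D' := pd g l' with hD'
  have key : ∀ N, (P * D').natDegree < N →
      PowerSeries.coeff N (S * (D' : PowerSeries (Polynomial ℤ))) = 0 := by
    intro N hN
    apply int_zero
    intro p hp
    obtain ⟨B, hB⟩ := hB p hp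
    set φ : Polynomial ℤ →+* ℂ := eval₂RingHom (Int.castRingHom ℂ) (p : ℂ)⁻¹ with hφ
    have e1 : (P * D').map φ = B * D.map φ := by
      apply poly_eq
      intro t ht
      have h := hB t ht
      rw [← eval_pd g l', ← eval_pd g l, ← eval_map, ← hD, ← hD', ← hφ] at h
      rw [Polynomial.map_mul, eval_mul, eval_mul]
      exact h
    have hD0 : D.map φ ≠ 0 := by
      intro h
      have h1 := congrArg (fun F : Polynomial ℂ => F.eval 0) h
      simp only [eval_zero] at h1
      rw [hD, hφ, eval_pd] at h1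
      have h2 : (l.map fun a => 1 - ((p : ℂ)⁻¹) ^ (∑ i, a i) * (0 : ℂ) ^ g a).prod = 1 := by
        apply List.prod_eq_one
        intro x hx
        obtain ⟨a, ha, rfl⟩ := List.mem_map.mp hx
        rw [zero_pow (hg a ha).ne', mul_zero, sub_zero]
      rw [h2] at h1
      exact one_ne_zero h1
    have hdeg : B.natDegree ≤ (P * D').natDegree := by
      rcases eq_or_ne B 0 with hB0 | hB0
      · rw [hB0]; simp
      · have h1 : (B * D.map φ).natDegree = B.natDegree + (D.map φ).natDegree :=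
          natDegree_mul hB0 hD0
        have h2 : ((P * D').map φ).natDegree ≤ (P * D').natDegree := natDegree_map_le
        rw [e1, h1] at h2
        omega
    have e2 : PowerSeries.map φ (S * (D' : PowerSeries (Polynomial ℤ))) =
        ((B : Polynomial ℂ) : PowerSeries ℂ) := by
      have h0 : ((D.map φ : Polynomial ℂ) : PowerSeries ℂ) ≠ 0 := by
        intro h
        exact hD0 (Polynomial.coe_injective ℂ (by rw [h]; simp))
      apply mul_right_cancel₀ h0
      have h3 : ∀ F : Polynomial (Polynomial ℤ),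
          ((F.map φ : Polynomial ℂ) : PowerSeries ℂ) =
            PowerSeries.map φ (F : PowerSeries (Polynomial ℤ)) := by
        intro F
        ext j
        simp
      rw [← Polynomial.coe_mul, ← e1, h3, h3, ← map_mul, Polynomial.coe_mul, ← hS]
      congr 1
      ring
    have e3 := congrArg (PowerSeries.coeff N) e2
    rw [PowerSeries.coeff_map, Polynomial.coeff_coe,
      Polynomial.coeff_eq_zero_of_natDegree_lt (lt_of_le_of_lt hdeg hN)] at e3
    exact e3
  refine ⟨PowerSeries.trunc ((P * D').natDegree + 1) (S * (D' : PowerSeries (Polynomial ℤ))), ?_⟩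
  ext1 N
  rw [Polynomial.coeff_coe, PowerSeries.coeff_trunc]
  split_ifs with h
  · rfl
  · exact key N (by omega)

end Pool.Agent.W579.BM
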