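import Pool.Agent.W425.BM.Stm
import Pool.Agent.W579.BM.TRcore

set_option autoImplicit false

namespace Pool.Agent.W579.BM

open Pool.Agent.W425.BM
open Pool.Agent.W426.SM (gord)

theorem main : TaskTR := by
  intro n k m S l l' P h1 h2 h3 h4
  exact core (gord m) S l l' P (fun a ha => (h1 a ha).2) h3 h4

end Pool.Agent.W579.BM
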